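import Pool.Agent.Lib.MP_e2d58b_nt.VR.Fin

/-!
# The order of magnitude of the variance, for every exponent `η ∈ (0,1]`
-/

set_option autoImplicit false

namespace Pool.Agent.Results.MP_e2d58b_nt.ExactOrder

open Finset

/-- `θ(X,Y;q,a)`: the sum of `log p` over the primes `X < p < X+Y`, `p ≡ a (mod q)`. -/
noncomputable def theta (X Y : ℝ) (q a : ℕ) : ℝ :=
  ∑ p ∈ (Finset.range (⌈X + Y⌉₊ + 1)).filter
    (fun p : ℕ => Nat.Prime p ∧ X < (p : ℝ) ∧ (p : ℝ) < X + Y ∧ p ≡ a [MOD q]), Real.log (p : ℝ)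

/-- The left-hand side of the problem: the sum over `q ≤ Q` and the reduced residues `a` mod `q`
of `|θ(X,Y;q,a) - Y/φ(q)|²`. -/
noncomputable def variance (X Y Q : ℝ) : ℝ :=
  ∑ q ∈ Finset.Icc 1 ⌊Q⌋₊, ∑ a ∈ (Finset.Icc 1 q).filter (fun a : ℕ => Nat.Coprime a q),
    (theta X Y q a - Y / (Nat.totient q : ℝ)) ^ 2

/-- `S(α)`: the sum of `log p · e(pα)` over the primes `X < p < X+Y`. -/
noncomputable def expSum (X Y α : ℝ) : ℂ :=
  ∑ p ∈ (Finset.range (⌈X + Y⌉₊ + 1)).filter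
    (fun p : ℕ => Nat.Prime p ∧ X < (p : ℝ) ∧ (p : ℝ) < X + Y),
    (Real.log (p : ℝ) : ℂ) * Complex.exp (2 * Real.pi * Complex.I * p * α)

/-- `M(X,Y;R)`: the sum over `r ≤ R` and `b` mod `r`, `(b,r) = 1`, of
`(1/r) |S(b/r) - μ(r) Y/φ(r)|²`. -/
noncomputable def smallDen (X Y R : ℝ) : ℝ :=
  ∑ r ∈ Finset.Icc 1 ⌊R⌋₊, (1 / (r : ℝ)) *
    ∑ b ∈ (Finset.range r).filter (fun b : ℕ => Nat.Coprime b r),
      ‖expSum X Y ((b : ℝ) / (r : ℝ)) -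
        (ArithmeticFunction.moebius r : ℂ) * (Y : ℂ) / (Nat.totient r : ℂ)‖ ^ 2

section proofs

open Pool.Agent.Lib.MP_e2d58b_nt.VR

lemma theta_eq (X Y : ℝ) (q a : ℕ) : theta X Y q a = th (PR X Y) lw q a := by
  unfold theta th PR lw
  rw [Finset.filter_filter]
  apply Finset.sum_congr _ (fun _ _ => rfl)
  apply Finset.filter_congr
  intro p _
  tauto

lemma variance_eq (X Y Q : ℝ) : variance X Y Q = V (PR X Y) lw Y ⌊Q⌋₊ := by
  unfold variance V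
  simp_rw [theta_eq]

lemma smallDen_eq (X Y R : ℝ) : smallDen X Y R = Mj (PR X Y) lw Y ⌊R⌋₊ := rfl

end proofs

/-- For every `0 < η ≤ 1` there are `c, C > 0` and `X₀` such that for `X ≥ X₀`, `X^η ≤ Y ≤ X`,
`Y^(39/40) ≤ Q ≤ Y` the variance lies between `c` and `C` times
`Y Q log X + log X · M(X,Y;(Y/Q) log X)`. -/
theorem result : ∀ η : ℝ, 0 < η → η ≤ 1 → ∃ c C X₀ : ℝ, 0 < c ∧ 0 < C ∧ ∀ X Y Q : ℝ, X₀ ≤ X →
    X ^ η ≤ Y → Y ≤ X → Y ^ ((39 : ℝ) / 40) ≤ Q → Q ≤ Y →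
    c * (Y * Q * Real.log X + Real.log X * smallDen X Y (Y / Q * Real.log X)) ≤
      variance X Y Q ∧
    variance X Y Q ≤
      C * (Y * Q * Real.log X + Real.log X * smallDen X Y (Y / Q * Real.log X)) := by
  intro η hη hη1
  obtain ⟨C, X₁, hC1, hX₁, hup⟩ := Pool.Agent.Lib.MP_e2d58b_nt.VR.upper η hη
  obtain ⟨X₂, hX₂, hlow⟩ := Pool.Agent.Lib.MP_e2d58b_nt.VR.two_lower η hη hη1
  refine ⟨η / 32000, C, max X₁ X₂, by positivity, by linarith,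
    fun X Y Q hX hY hYX hQl hQY => ?_⟩
  have ha : X₁ ≤ X := le_trans (le_max_left _ _) hX
  have hb : X₂ ≤ X := le_trans (le_max_right _ _) hX
  have hY1 : 1 ≤ Y := le_trans (Real.one_le_rpow (by linarith) hη.le) hY
  have hQ1 : 1 ≤ Q := le_trans (Real.one_le_rpow hY1 (by norm_num)) hQl
  rw [variance_eq]
  exact ⟨hlow X Y Q hb hY hYX hQl hQY, (hup X Y Q ha hY hYX hQ1 hQY).1⟩

end Pool.Agent.Results.MP_e2d58b_nt.ExactOrder
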