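import Pool.Agent.Lib.MP_e2d58b_nt.VR.Pm

/-!
# The variance over moduli without small prime factors, for every exponent `η ∈ (0,1]`
-/

set_option autoImplicit false

namespace Pool.Agent.Results.MP_e2d58b_nt.RoughModuli

open Finset

/-- `θ(X,Y;q,a)`: the sum of `log p` over the primes `X < p < X+Y`, `p ≡ a (mod q)`. -/
noncomputable def theta (X Y : ℝ) (q a : ℕ) : ℝ :=
  ∑ p ∈ (Finset.range (⌈X + Y⌉₊ + 1)).filter
    (fun p : ℕ => Nat.Prime p ∧ X < (p : ℝ) ∧ (p : ℝ) < X + Y ∧ p ≡ a [MOD q]), Real.log (p : ℝ)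

/-- `θ(X,Y)`: the sum of `log p` over the primes `X < p < X+Y`. -/
noncomputable def thetaAll (X Y : ℝ) : ℝ :=
  ∑ p ∈ (Finset.range (⌈X + Y⌉₊ + 1)).filter
    (fun p : ℕ => Nat.Prime p ∧ X < (p : ℝ) ∧ (p : ℝ) < X + Y), Real.log (p : ℝ)

section proofs

open Pool.Agent.Lib.MP_e2d58b_nt.VR

lemma theta_eq (X Y : ℝ) (q a : ℕ) : theta X Y q a = th (PR X Y) lw q a := by
  unfold theta th PR lw
  rw [Finset.filter_filter]
  apply Finset.sum_congr _ (fun _ _ => rfl)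
  apply Finset.filter_congr
  intro p _
  tauto

lemma thetaAll_eq (X Y : ℝ) : thetaAll X Y = ∑ p ∈ PR X Y, lw p := rfl

end proofs

/-- For every `0 < η ≤ 1` there are `C`, `X₀` such that for `X ≥ X₀`, `X^η ≤ Y ≤ X`, `1 ≤ Q ≤ Y`
and every set `M` of moduli `q ≤ Q` all of whose prime factors exceed `z ≥ (Y/Q) log X`, the part
`q ∈ M` of the variance is at most `C Y Q log X + |θ(X,Y) - Y|² ∑_{q ∈ M} 1/φ(q)`; and
`|θ(X,Y) - Y| ≤ C Y`. -/
theorem result : ∀ η : ℝ, 0 < η → η ≤ 1 → ∃ C X₀ : ℝ, 0 < C ∧ ∀ X Y Q z : ℝ, X₀ ≤ X →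
    X ^ η ≤ Y → Y ≤ X → 1 ≤ Q → Q ≤ Y → Y / Q * Real.log X ≤ z →
    |thetaAll X Y - Y| ≤ C * Y ∧
    ∀ M : Finset ℕ, (∀ q ∈ M, 1 ≤ q ∧ (q : ℝ) ≤ Q ∧ ∀ p : ℕ, p.Prime → p ∣ q → z < (p : ℝ)) →
      ∑ q ∈ M, ∑ a ∈ (Finset.Icc 1 q).filter (fun a : ℕ => Nat.Coprime a q),
        (theta X Y q a - Y / (Nat.totient q : ℝ)) ^ 2 ≤
      C * (Y * Q * Real.log X) +
        (thetaAll X Y - Y) ^ 2 * ∑ q ∈ M, 1 / (Nat.totient q : ℝ) := by
  intro η hη _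
  obtain ⟨C, X₁, hC, hX₁, h⟩ := Pool.Agent.Lib.MP_e2d58b_nt.VR.upper η hη
  obtain ⟨B, X₂, hB1, hX₂, hB⟩ := Pool.Agent.Lib.MP_e2d58b_nt.VR.bt_th η hη
  refine ⟨max C B, max X₁ X₂, lt_of_lt_of_le (by linarith) (le_max_left _ _),
    fun X Y Q z hX hY hYX hQ1 hQY hz => ?_⟩
  have ha : X₁ ≤ X := le_trans (le_max_left _ _) hX
  have hb : X₂ ≤ X := le_trans (le_max_right _ _) hX
  have hY1 : 1 ≤ Y := le_trans (Real.one_le_rpow (by linarith) hη.le) hY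
  have hY0 : 0 < Y := by linarith
  have hQ0 : 0 < Q := by linarith
  have hlX : 0 < Real.log X := Real.log_pos (by linarith)
  have hBB := hB X Y hb hY hYX 1 le_rfl (by simpa using hY1) 1
  rw [Pool.Agent.Lib.MP_e2d58b_nt.VR.th_one] at hBB
  simp only [Nat.totient_one, Nat.cast_one, div_one] at hBB
  have hθ0 : 0 ≤ thetaAll X Y := Finset.sum_nonneg fun p _ => Real.log_natCast_nonneg p
  rw [← thetaAll_eq] at hBB
  refine ⟨?_, fun M hM => ?_⟩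
  · have h1 : |thetaAll X Y - Y| ≤ B * Y := by
      rw [abs_le]
      constructor <;> nlinarith
    refine h1.trans ?_
    gcongr
    exact le_max_right _ _
  · have hsub : M ⊆ Finset.Icc 1 ⌊Q⌋₊ := by
      intro q hq
      rw [mem_Icc]
      exact ⟨(hM q hq).1, Nat.le_floor (hM q hq).2.1⟩
    obtain ⟨-, -, h3⟩ := h X Y Q ha hY hYX hQ1 hQY
    have h4 := h3 z hz M hsub (fun q hq => (hM q hq).2.2)
    have hcop := Pool.Agent.Lib.MP_e2d58b_nt.VR.cop hYX ⌊Q⌋₊ ((Nat.floor_le hQ0.le).trans hQY)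
    simp_rw [theta_eq]
    rw [← thetaAll_eq] at h4
    have h5 : ∀ q ∈ M, ∑ a ∈ (Finset.Icc 1 q).filter (fun a : ℕ => Nat.Coprime a q),
        (Pool.Agent.Lib.MP_e2d58b_nt.VR.th (Pool.Agent.Lib.MP_e2d58b_nt.VR.PR X Y)
          Pool.Agent.Lib.MP_e2d58b_nt.VR.lw q a - Y / (Nat.totient q : ℝ)) ^ 2 =
        ∑ a ∈ (Finset.Icc 1 q).filter (fun a : ℕ => Nat.Coprime a q),
        (Pool.Agent.Lib.MP_e2d58b_nt.VR.th (Pool.Agent.Lib.MP_e2d58b_nt.VR.PR X Y)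
          Pool.Agent.Lib.MP_e2d58b_nt.VR.lw q a - thetaAll X Y / (Nat.totient q : ℝ)) ^ 2 +
        (thetaAll X Y - Y) ^ 2 * (1 / (Nat.totient q : ℝ)) := by
      intro q hq
      have hq0 : 0 < q := (hM q hq).1
      rw [Pool.Agent.Lib.MP_e2d58b_nt.VR.local_expand _ _ Y q hq0 (hcop q (hsub hq)),
        Pool.Agent.Lib.MP_e2d58b_nt.VR.local_expand _ _ (thetaAll X Y) q hq0 (hcop q (hsub hq)),
        ← thetaAll_eq, sub_self]
      ring
    rw [Finset.sum_congr rfl h5, Finset.sum_add_distrib, ← Finset.mul_sum]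
    have h6 : 0 ≤ Y * Q * Real.log X := by positivity
    have h7 : C * (Y * Q * Real.log X) ≤ max C B * (Y * Q * Real.log X) := by
      gcongr
      exact le_max_left _ _
    linarith

end Pool.Agent.Results.MP_e2d58b_nt.RoughModuli
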